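import Pool.Agent.H91.NV.LTargets

/-! Row L_CHD of the board nvk_modules. -/

set_option autoImplicit false

open MeasureTheory Set Filter NumberField NumberField.InfinitePlace
open scoped Real

namespace Pool.Agent.H32.NVK

open Pool.Agent.H65.CM4 Pool.Agent.H61.NVK Pool.Agent.H89.NV Pool.Agent.H91.NV

theorem mem_ni_CHD {k : Type} [Field k] [NumberField k] (m : ℕ) (J : Ideal (𝓞 k)) (x : 𝓞 k) :
    x ∈ ni k m * J ↔ ∃ z ∈ J, (m : 𝓞 k) * z = x := by
  unfold ni
  exact Ideal.mem_span_singleton_mul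

variable (k : Type) [Field k] [NumberField k] [IsTotallyReal k]

theorem pf_CHD (hBMD : T_BMD k) (hNRI : T_NRI k) : T_CHD k := by
  intro f b b' c c' hf hb hb' hc hc' hD P
  have h4 : (4 : 𝓞 k) ≠ 0 := by norm_num
  have h1 : b ^ 2 + (4 * c - b ^ 2) ∈ ni k 4 * f ^ 2 := by
    rw [mem_ni_CHD]
    exact ⟨c, hc, by push_cast; ring⟩
  have h2 : b' ^ 2 + (4 * c - b ^ 2) ∈ ni k 4 * f ^ 2 := by
    rw [mem_ni_CHD]
    refine ⟨c', hc', ?_⟩
    push_cast
    rw [hD]
    ring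
  have h := hBMD f (4 * c - b ^ 2) b' b hf hb' hb h2 h1
  rw [mem_ni_CHD] at h
  obtain ⟨s, hs, hs2⟩ := h
  have e1 : b' = b + 2 * s := by
    have : (2 : 𝓞 k) * s = b' - b := by
      rw [← hs2]
      push_cast
      ring
    rw [this]
    ring
  have e2 : c' = s ^ 2 + b * s + c := by
    apply mul_left_cancel₀ h4
    have : (4 : 𝓞 k) * c' = (4 * c - b ^ 2) + b' ^ 2 := by
      rw [hD]
      ring
    rw [this, e1]
    ring
  obtain ⟨-, -, h3, -, -⟩ := hNRI f P.1 ⊤ b c hf P.2.2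
  have h5 := h3 hb s (by rw [← Ideal.one_eq_top, one_mul]; exact hs)
  unfold chi
  rw [e1, e2, h5]

end Pool.Agent.H32.NVK
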