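import Pool.Agent.H91.NV.LTargets

/-! Row L_GOD of the board nvk_modules. -/

set_option autoImplicit false

open MeasureTheory Set Filter NumberField NumberField.InfinitePlace
open scoped Real

namespace Pool.Agent.H32.NVK

open Pool.Agent.H65.CM4 Pool.Agent.H61.NVK Pool.Agent.H89.NV Pool.Agent.H91.NV

theorem mem_ni {k : Type} [Field k] [NumberField k] (m : ℕ) (J : Ideal (𝓞 k)) (x : 𝓞 k) :
    x ∈ ni k m * J ↔ ∃ z ∈ J, (m : 𝓞 k) * z = x := by
  unfold ni
  exact Ideal.mem_span_singleton_mul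

variable (k : Type) [Field k] [NumberField k] [IsTotallyReal k]

theorem pf_GOD (hBMD : T_BMD k) : T_GOD k := by
  intro f P b c hf hb hc
  have h4 : (4 : 𝓞 k) ≠ 0 := by norm_num
  have hD : b ^ 2 + (4 * c - b ^ 2) ∈ ni k 4 * f ^ 2 := by
    rw [mem_ni]
    exact ⟨c, hc, by push_cast; ring⟩
  refine ⟨⟨b, hb, hD⟩, ?_, ?_⟩
  · rintro ⟨b1, hb1, hd1⟩
    have hPf : P.1 * f ≤ f := Ideal.mul_le_right
    have hd1' : b1 ^ 2 + (4 * c - b ^ 2) ∈ ni k 4 * f ^ 2 := by
      refine Ideal.mul_mono_right ?_ hd1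
      exact Ideal.pow_right_mono hPf 2
    have h := hBMD f (4 * c - b ^ 2) b1 b hf (hPf hb1) hb hd1' hD
    rw [mem_ni] at h
    obtain ⟨s, hs, hs2⟩ := h
    have e1 : b + 2 * s = b1 := by
      have : (2 : 𝓞 k) * s = b1 - b := by
        rw [← hs2]
        push_cast
        ring
      rw [this]
      ring
    refine ⟨s, hs, by rw [e1]; exact hb1, ?_⟩
    rw [mem_ni] at hd1
    obtain ⟨z, hz, hz2⟩ := hd1
    have e2 : z = s ^ 2 + b * s + c := by
      apply mul_left_cancel₀ h4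
      have : (4 : 𝓞 k) * z = b1 ^ 2 + (4 * c - b ^ 2) := by
        rw [← hz2]
        push_cast
        ring
      rw [this, ← e1]
      ring
    rw [← e2, ← mul_pow]
    exact hz
  · rintro ⟨s, hs, h1, h2⟩
    refine ⟨b + 2 * s, h1, ?_⟩
    rw [mem_ni]
    refine ⟨s ^ 2 + b * s + c, by rw [mul_pow]; exact h2, ?_⟩
    push_cast
    ring

end Pool.Agent.H32.NVK
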