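import Pool.Agent.H91.NV.LTargets

/-! Row L_MIS of the board nvk_modules. -/

set_option autoImplicit false

open MeasureTheory Set Filter NumberField NumberField.InfinitePlace
open scoped Real

namespace Pool.Agent.H32.NVK

open Pool.Agent.H65.CM4 Pool.Agent.H61.NVK Pool.Agent.H89.NV Pool.Agent.H91.NV

section

variable {k : Type} [Field k] [NumberField k]

/-- the two facts about the local coordinate -/
theorem local_coord (M P : Ideal (𝓞 k)) (m : ℕ) (φ : 𝓞 k) (hP : P.IsPrime) (hP0 : P ≠ ⊥)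
    (hM : M ≠ ⊥) (hφ : φ ∈ M) (hφ' : φ ∉ P * M) :
    Ideal.span {φ} ⊔ P ^ m * M = M ∧ ∀ x, φ * x ∈ P ^ m * M → x ∈ P ^ m := by
  have h1 : Ideal.span {φ} ≤ M := by
    rw [Ideal.span_singleton_le_iff_mem]
    exact hφ
  obtain ⟨J, hJ⟩ := Ideal.dvd_iff_le.mpr h1
  have hPJ : ¬ P ∣ J := by
    rintro ⟨J', hJ'⟩
    apply hφ'
    have h2 : Ideal.span {φ} ≤ P * M := by
      rw [hJ, hJ', ← mul_assoc, mul_comm M P]
      exact Ideal.mul_le_left
    exact h2 (Ideal.mem_span_singleton_self φ)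
  have hPmax : P.IsMaximal := hP.isMaximal hP0
  have hcop : IsCoprime P J := by
    rw [Ideal.isCoprime_iff_sup_eq]
    have h3 : ¬ J ≤ P := fun h => hPJ (Ideal.dvd_iff_le.mpr h)
    have h4 : P < P ⊔ J := by
      rw [lt_iff_le_and_ne]
      refine ⟨le_sup_left, ?_⟩
      intro h
      exact h3 (h ▸ le_sup_right)
    exact hPmax.out.2 _ h4
  have hcopm : IsCoprime (P ^ m) J := hcop.pow_left
  constructor
  · rw [hJ, mul_comm (P ^ m) M, ← Ideal.mul_sup, sup_comm, Ideal.isCoprime_iff_sup_eq.mp hcopm,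
      Ideal.mul_top]
  · intro x hx
    have h5 : P ^ m * M ∣ Ideal.span {φ} * Ideal.span {x} := by
      rw [Ideal.dvd_iff_le, Ideal.span_singleton_mul_span_singleton, Ideal.span_singleton_le_iff_mem]
      exact hx
    rw [hJ, mul_comm (P ^ m) M, mul_assoc] at h5
    have h6 : P ^ m ∣ J * Ideal.span {x} := (mul_dvd_mul_iff_left hM).mp h5
    have h7 : P ^ m ∣ Ideal.span {x} := hcopm.dvd_of_dvd_mul_left h6
    rw [Ideal.dvd_iff_le, Ideal.span_singleton_le_iff_mem] at h7
    exact h7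

end

variable (k : Type) [Field k] [NumberField k] [IsTotallyReal k]

theorem pf_MIS (hRSB : T_RSB k) : T_MIS k := by
  classical
  obtain ⟨hR1, hR2, hR3⟩ := hRSB
  intro M P m φ g hM hφ hφ' hper
  obtain ⟨ha, hb⟩ := local_coord M P.1 m φ P.2.1 P.2.2 hM hφ hφ'
  have hPm : P.1 ^ m ≠ ⊥ := pow_ne_zero m P.2.2
  have hJ : P.1 ^ m * M ≠ ⊥ := mul_ne_zero hPm hM
  have hJM : P.1 ^ m * M ≤ M := Ideal.mul_le_right
  obtain ⟨hrep, -⟩ := hR1 _ hJ
  obtain ⟨hrep2, -⟩ := hR1 _ hPm
  have hφ0 : φ ≠ 0 := by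
    intro h
    apply hφ'
    rw [h]
    exact Ideal.zero_mem _
  have hinj : Function.Injective (fun x : 𝓞 k => φ * x) := mul_right_injective₀ hφ0
  unfold mI
  congr 1
  have key := hR3 (P.1 ^ m * M) ((Rs (P.1 ^ m * M)).filter (fun x => x ∈ M))
    ((Rs (P.1 ^ m)).image (fun x => φ * x)) (fun x => if x ∈ M then g x else 0) ?_ ?_ ?_
  · have e1 : ∑ x ∈ (Rs (P.1 ^ m * M)).filter (fun x => x ∈ M), (if x ∈ M then g x else 0) =
        ∑ x ∈ (Rs (P.1 ^ m * M)).filter (fun x => x ∈ M), g x := by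
      apply Finset.sum_congr rfl
      intro x hx
      rw [if_pos (Finset.mem_filter.mp hx).2]
    have e2 : ∑ x ∈ (Rs (P.1 ^ m)).image (fun x => φ * x), (if x ∈ M then g x else 0) =
        ∑ x ∈ Rs (P.1 ^ m), g (φ * x) := by
      rw [Finset.sum_image (fun x _ y _ h => hinj h)]
      apply Finset.sum_congr rfl
      intro x _
      rw [if_pos (Ideal.mul_mem_right x M hφ)]
    rw [e1, e2] at key
    rw [key, Ideal.mul_top]
    apply Finset.sum_congr _ (fun _ _ => rfl)
    ext x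
    simp
  · intro x hx
    obtain ⟨hx1, hx2⟩ := Finset.mem_filter.mp hx
    have hx3 : x ∈ Ideal.span {φ} ⊔ P.1 ^ m * M := by
      rw [ha]
      exact hx2
    obtain ⟨y, hy, z, hz, hyz⟩ := Submodule.mem_sup.mp hx3
    obtain ⟨w, hw⟩ := Ideal.mem_span_singleton'.mp hy
    obtain ⟨r, ⟨hr1, hr2⟩, hru⟩ := hrep2 w
    refine ⟨φ * r, ⟨Finset.mem_image.mpr ⟨r, hr1, rfl⟩, ?_⟩, ?_⟩
    · have e : x - φ * r = (w - r) * φ + z := by
        rw [← hyz, ← hw]
        ring
      rw [e]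
      exact Ideal.add_mem _ (Ideal.mul_mem_mul hr2 hφ) hz
    · rintro v ⟨hv1, hv2⟩
      obtain ⟨r', hr', hvr⟩ := Finset.mem_image.mp hv1
      have h8 : φ * (w - r') ∈ P.1 ^ m * M := by
        have e : φ * (w - r') = (x - v) - z := by
          rw [← hvr, ← hyz, ← hw]
          ring
        rw [e]
        exact Ideal.sub_mem _ hv2 hz
      have h9 := hb _ h8
      have : r' = r := hru r' ⟨hr', h9⟩
      rw [← hvr, this]
  · intro y hy
    obtain ⟨r, hr, hyr⟩ := Finset.mem_image.mp hy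
    have hyM : y ∈ M := by
      rw [← hyr]
      exact Ideal.mul_mem_right r M hφ
    obtain ⟨x, ⟨hx1, hx2⟩, hxu⟩ := hrep y
    have hxM : x ∈ M := by
      have := Ideal.sub_mem _ hyM (hJM hx2)
      have e : x = y - (y - x) := by ring
      rw [e]
      exact this
    refine ⟨x, ⟨Finset.mem_filter.mpr ⟨hx1, hxM⟩, ?_⟩, ?_⟩
    · have e : x - y = -(y - x) := by ring
      rw [e]
      exact (Ideal.neg_mem_iff _).mpr hx2
    · rintro x' ⟨hx'1, hx'2⟩
      apply hxu
      refine ⟨(Finset.mem_filter.mp hx'1).1, ?_⟩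
      have e : y - x' = -(x' - y) := by ring
      rw [e]
      exact (Ideal.neg_mem_iff _).mpr hx'2
  · intro x y hy
    by_cases hx : x ∈ M
    · have h1 : x + y ∈ M := Ideal.add_mem _ hx (hJM hy)
      simp only [if_pos hx, if_pos h1]
      exact hper x hx y hy
    · have h1 : x + y ∉ M := by
        intro h
        apply hx
        have := Ideal.sub_mem _ h (hJM hy)
        have e : x = x + y - y := by ring
        rw [e]
        exact this
      simp only [if_neg hx, if_neg h1]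

end Pool.Agent.H32.NVK
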