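import Pool.Agent.H91.NV.LTargets

/-! Row L_NRI of the board nvk_modules. -/

set_option autoImplicit false

open MeasureTheory Set Filter NumberField NumberField.InfinitePlace
open scoped Real

namespace Pool.Agent.H32.NVK

open Pool.Agent.H65.CM4 Pool.Agent.H61.NVK Pool.Agent.H89.NV Pool.Agent.H91.NV

section

variable {k : Type} [Field k] [NumberField k]

theorem root_congr (f I A : Ideal (𝓞 k)) (b c x y : 𝓞 k) (hb : b ∈ f) (hx : x ∈ A * f)
    (hy : y ∈ A * f) (hxy : x - y ∈ I * (A * f)) (h : y ^ 2 + b * y + c ∈ I * (A * f ^ 2)) :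
    x ^ 2 + b * x + c ∈ I * (A * f ^ 2) := by
  have e : x ^ 2 + b * x + c = (y ^ 2 + b * y + c) + (x - y) * (x + y + b) := by ring
  rw [e]
  apply Ideal.add_mem _ h
  have hAf : A * f ≤ f := Ideal.mul_le_right
  have h1 : x + y + b ∈ f := Ideal.add_mem _ (Ideal.add_mem _ (hAf hx) (hAf hy)) hb
  have h2 : (x - y) * (x + y + b) ∈ (I * (A * f)) * f := Ideal.mul_mem_mul hxy h1
  have e2 : (I * (A * f)) * f = I * (A * f ^ 2) := by ring
  rw [← e2]
  exact h2

open Classical in
theorem card_filter_le (hR : ∀ I : Ideal (𝓞 k), I ≠ ⊥ → (∀ x, ∃! r, r ∈ Rs I ∧ x - r ∈ I) ∧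
    (Rs I).card = Ideal.absNorm I) (I M : Ideal (𝓞 k)) (hI : I ≠ ⊥) (hM : M ≠ ⊥) :
    ((Rs (I * M)).filter (fun x => x ∈ M)).card ≤ Ideal.absNorm I := by
  have hIM : I * M ≠ ⊥ := by
    intro h
    rcases Ideal.mul_eq_bot.mp h with h | h
    · exact hI h
    · exact hM h
  have hle : I * M ≤ M := Ideal.mul_le_right
  obtain ⟨h1, h2⟩ := hR (I * M) hIM
  obtain ⟨h3, h4⟩ := hR M hM
  have hMpos : 0 < Ideal.absNorm M := by
    rw [Nat.pos_iff_ne_zero]
    intro h
    exact hM (Ideal.absNorm_eq_zero_iff.mp h)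
  choose ρ hρ hρu using h1
  have hcard : ((Rs (I * M)).filter (fun x => x ∈ M)).card * (Rs M).card ≤ (Rs (I * M)).card := by
    rw [← Finset.card_product]
    refine Finset.card_le_card_of_injOn (fun p => ρ (p.1 + p.2)) (fun p _ => (hρ _).1) ?_
    intro p hp p' hp' hpp
    simp only [Finset.coe_product, Set.mem_prod, Finset.mem_coe, Finset.mem_filter] at hp hp' hpp
    have e1 := (hρ (p.1 + p.2)).2
    have e2 := (hρ (p'.1 + p'.2)).2
    rw [hpp] at e1
    have e3 : (p.1 + p.2) - (p'.1 + p'.2) ∈ I * M := by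
      have := Ideal.sub_mem _ e1 e2
      have e : (p.1 + p.2) - (p'.1 + p'.2) = p.1 + p.2 - ρ (p'.1 + p'.2) - (p'.1 + p'.2 - ρ (p'.1 + p'.2)) := by
        ring
      rw [e]
      exact this
    have e4 : p.2 - p'.2 ∈ M := by
      have h5 := Ideal.sub_mem _ (hle e3) (Ideal.sub_mem _ hp.1.2 hp'.1.2)
      have e : p.2 - p'.2 = (p.1 + p.2) - (p'.1 + p'.2) - (p.1 - p'.1) := by ring
      rw [e]
      exact h5
    obtain ⟨r, hr, hru⟩ := h3 p.2
    have e5 : p.2 = p'.2 := by
      have t1 := hru p.2 ⟨hp.2, by rw [sub_self]; exact Ideal.zero_mem _⟩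
      have t2 := hru p'.2 ⟨hp'.2, e4⟩
      rw [t1, t2]
    have e6 : p.1 - p'.1 ∈ I * M := by
      have e : p.1 - p'.1 = (p.1 + p.2) - (p'.1 + p'.2) := by
        rw [e5]
        ring
      rw [e]
      exact e3
    have e7 : p.1 = p'.1 := by
      have t1 := hρu p.1 p.1 ⟨hp.1.1, by rw [sub_self]; exact Ideal.zero_mem _⟩
      have t2 := hρu p.1 p'.1 ⟨hp'.1.1, e6⟩
      rw [t1, t2]
    exact Prod.ext e7 e5
  rw [h2, h4, map_mul] at hcard
  exact Nat.le_of_mul_le_mul_right hcard hMpos

end

variable (k : Type) [Field k] [NumberField k] [IsTotallyReal k]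

theorem pf_NRI (hRSB : T_RSB k) : T_NRI k := by
  classical
  obtain ⟨hR1, hR2, hR3⟩ := hRSB
  intro f I A b c hf hI
  have hbot : A = ⊥ → ∀ b c : 𝓞 k, nr f I A b c = 0 := by
    intro hA b c
    unfold Pool.Agent.H89.NV.nr rts
    rw [hA, Ideal.bot_mul, Ideal.mul_bot, hR2]
    simp
  refine ⟨?_, fun hA => hbot hA b c, ?_, ?_, ?_⟩
  · by_cases hA : A = ⊥
    · rw [hbot hA b c, Nat.cast_zero]
      unfold nm
      positivity
    · have hM : A * f ≠ ⊥ := by
        intro h
        rcases Ideal.mul_eq_bot.mp h with h | h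
        · exact hA h
        · exact hf h
      have h1 := card_filter_le hR1 I (A * f) hI hM
      have h2 : nr f I A b c ≤ ((Rs (I * (A * f))).filter (fun x => x ∈ A * f)).card := by
        unfold Pool.Agent.H89.NV.nr rts
        apply Finset.card_le_card
        intro x hx
        rw [Finset.mem_filter] at hx ⊢
        exact ⟨hx.1, hx.2.1⟩
      unfold nm
      exact_mod_cast le_trans h2 h1
  · intro hb j hj
    by_cases hA : A = ⊥
    · rw [hbot hA, hbot hA]
    have hM : A * f ≠ ⊥ := by
      intro h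
      rcases Ideal.mul_eq_bot.mp h with h | h
      · exact hA h
      · exact hf h
    have hL : I * (A * f) ≠ ⊥ := by
      intro h
      rcases Ideal.mul_eq_bot.mp h with h | h
      · exact hI h
      · exact hM h
    have hLM : I * (A * f) ≤ A * f := Ideal.mul_le_right
    obtain ⟨hrep, -⟩ := hR1 _ hL
    have key := hR3 (I * (A * f)) (rts f I A (b + 2 * j) (j ^ 2 + b * j + c))
      ((rts f I A b c).image (fun r => r - j)) (fun _ => (1 : ℝ)) ?_ ?_ (fun _ _ _ => rfl)
    · rw [Finset.sum_const, Finset.sum_const, Finset.card_image_of_injective _ (sub_left_injective)] at key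
      simp only [nsmul_eq_mul, mul_one] at key
      unfold Pool.Agent.H89.NV.nr
      exact_mod_cast key
    · intro x hx
      unfold rts at hx
      rw [Finset.mem_filter] at hx
      obtain ⟨hx1, hx2, hx3⟩ := hx
      obtain ⟨r, ⟨hr1, hr2⟩, hru⟩ := hrep (x + j)
      have hxj : x + j ∈ A * f := Ideal.add_mem _ hx2 hj
      have hrM : r ∈ A * f := by
        have := Ideal.sub_mem _ hxj (hLM hr2)
        have e : r = x + j - (x + j - r) := by ring
        rw [e]
        exact this
      have hroot : r ^ 2 + b * r + c ∈ I * (A * f ^ 2) := by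
        apply root_congr f I A b c r (x + j) hb hrM hxj
        · have : r - (x + j) = -(x + j - r) := by ring
          rw [this]
          exact Ideal.neg_mem_iff _ |>.mpr hr2
        · have e : (x + j) ^ 2 + b * (x + j) + c = x ^ 2 + (b + 2 * j) * x + (j ^ 2 + b * j + c) := by ring
          rw [e]
          exact hx3
      refine ⟨r - j, ⟨Finset.mem_image.mpr ⟨r, ?_, rfl⟩, ?_⟩, ?_⟩
      · unfold rts
        rw [Finset.mem_filter]
        exact ⟨hr1, hrM, hroot⟩
      · have e : x - (r - j) = x + j - r := by ring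
        rw [e]
        exact hr2
      · rintro y ⟨hy1, hy2⟩
        obtain ⟨r', hr', hyr⟩ := Finset.mem_image.mp hy1
        unfold rts at hr'
        rw [Finset.mem_filter] at hr'
        have : r' = r := by
          apply hru
          refine ⟨hr'.1, ?_⟩
          have e : x + j - r' = x - y := by
            rw [← hyr]
            ring
          rw [e]
          exact hy2
        rw [← hyr, this]
    · intro y hy
      obtain ⟨r, hr, hyr⟩ := Finset.mem_image.mp hy
      unfold rts at hr
      rw [Finset.mem_filter] at hr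
      obtain ⟨hr1, hr2, hr3⟩ := hr
      obtain ⟨x, ⟨hx1, hx2⟩, hxu⟩ := hrep (r - j)
      have hrj : r - j ∈ A * f := Ideal.sub_mem _ hr2 hj
      have hxM : x ∈ A * f := by
        have := Ideal.sub_mem _ hrj (hLM hx2)
        have e : x = r - j - (r - j - x) := by ring
        rw [e]
        exact this
      have hroot : (x + j) ^ 2 + b * (x + j) + c ∈ I * (A * f ^ 2) := by
        apply root_congr f I A b c (x + j) r hb (Ideal.add_mem _ hxM hj) hr2 _ hr3
        have : x + j - r = -(r - j - x) := by ring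
        rw [this]
        exact Ideal.neg_mem_iff _ |>.mpr hx2
      refine ⟨x, ⟨?_, ?_⟩, ?_⟩
      · unfold rts
        rw [Finset.mem_filter]
        refine ⟨hx1, hxM, ?_⟩
        have e : x ^ 2 + (b + 2 * j) * x + (j ^ 2 + b * j + c) = (x + j) ^ 2 + b * (x + j) + c := by ring
        rw [e]
        exact hroot
      · have e : x - y = -(r - j - x) := by
          rw [← hyr]
          ring
        rw [e]
        exact Ideal.neg_mem_iff _ |>.mpr hx2
      · rintro x' ⟨hx'1, hx'2⟩
        unfold rts at hx'1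
        rw [Finset.mem_filter] at hx'1
        apply hxu
        refine ⟨hx'1.1, ?_⟩
        have e : r - j - x' = -(x' - y) := by
          rw [← hyr]
          ring
        rw [e]
        exact Ideal.neg_mem_iff _ |>.mpr hx'2
  · intro x hx
    unfold Pool.Agent.H89.NV.nr rts
    congr 1
    apply Finset.filter_congr
    intro j _
    have key : j ∈ A * f → (j ^ 2 + (b + x) * j + c ∈ I * (A * f ^ 2) ↔
        j ^ 2 + b * j + c ∈ I * (A * f ^ 2)) := by
      intro hj
      have e : j ^ 2 + (b + x) * j + c = (j ^ 2 + b * j + c) + x * j := by ring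
      have h1 : x * j ∈ I * (A * f ^ 2) := by
        have h2 := Ideal.mul_mem_mul hx hj
        have e2 : I * f * (A * f) = I * (A * f ^ 2) := by ring
        rw [← e2]
        exact h2
      rw [e]
      exact Ideal.add_mem_iff_left _ h1
    constructor
    · rintro ⟨h1, h2⟩
      exact ⟨h1, (key h1).mp h2⟩
    · rintro ⟨h1, h2⟩
      exact ⟨h1, (key h1).mpr h2⟩
  · intro x hx
    unfold Pool.Agent.H89.NV.nr rts
    congr 1
    apply Finset.filter_congr
    intro j _
    have e : j ^ 2 + b * j + (c + x) = (j ^ 2 + b * j + c) + x := by ring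
    rw [e, Ideal.add_mem_iff_left _ hx]

end Pool.Agent.H32.NVK
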